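import Pool.Agent.Helper60.LZ.St

/-! Project LZ, module MSQ: large sieve in mean square. -/

set_option autoImplicit false

noncomputable section

namespace Pool.Agent.Helper84.LZ

open Finset
open Pool.Agent.Helper60.LZ
open Pool.Agent.Helper15.AB (SP StML)
open Pool.Agent.Helper93.KS (StPSI StTRF StRNL sx)

private theorem SP_nonneg (G : (ℕ → ℂ) → ℝ) (hG : ∀ x, 0 ≤ G x) (r : ℕ) : 0 ≤ SP G r := by
  unfold SP
  split_ifs with h
  · exact le_refl 0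
  · exact Finset.sum_nonneg fun ψ _ => hG _

private theorem mem_bp {j p : ℕ} : p ∈ bp j ↔ (2 ^ j ≤ p ∧ p < 2 ^ (j + 1)) ∧ p.Prime := by
  unfold bp
  rw [Finset.mem_filter, Finset.mem_Ico]

private theorem card_bp (j : ℕ) : j * (bp j).card ≤ 4 * 2 ^ j := by
  have h1 : (2 ^ j) ^ (bp j).card ≤ ∏ p ∈ bp j, p :=
    Finset.pow_card_le_prod (bp j) (fun p => p) (2 ^ j) fun p hp => (mem_bp.1 hp).1.1
  have h2 : ∏ p ∈ bp j, p ≤ primorial (2 ^ (j + 1)) := by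
    unfold primorial
    refine Finset.prod_le_prod_of_subset_of_one_le' ?_ ?_
    · intro p hp
      obtain ⟨⟨_, h⟩, hpr⟩ := mem_bp.1 hp
      exact Finset.mem_filter.2 ⟨Finset.mem_range.2 (by omega), hpr⟩
    · intro p hp _
      exact (Finset.mem_filter.1 hp).2.pos
  have h3 := primorial_le_four_pow (2 ^ (j + 1))
  have h4 : 2 ^ (j * (bp j).card) ≤ 2 ^ (2 * 2 ^ (j + 1)) := by
    calc 2 ^ (j * (bp j).card) = (2 ^ j) ^ (bp j).card := by rw [pow_mul]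
      _ ≤ 4 ^ (2 ^ (j + 1)) := h1.trans (h2.trans h3)
      _ = 2 ^ (2 * 2 ^ (j + 1)) := by rw [pow_mul]; norm_num
  have h5 := (Nat.pow_le_pow_iff_right (by norm_num : 1 < 2)).1 h4
  rw [pow_succ] at h5
  omega

private theorem sum_sq (j : ℕ) (hj : 1 ≤ j) :
    ∑ p ∈ bp j, (1 / (p : ℝ)) ^ 2 ≤ (4 : ℝ) / ((j : ℝ) * (2 : ℝ) ^ j) := by
  have hj0 : (0 : ℝ) < j := by exact_mod_cast hj
  have h1 : ∑ p ∈ bp j, (1 / (p : ℝ)) ^ 2 ≤ (bp j).card * (1 / (2 : ℝ) ^ j) ^ 2 := by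
    rw [← nsmul_eq_mul]
    refine Finset.sum_le_card_nsmul _ _ _ fun p hp => ?_
    have h2 : (2 : ℝ) ^ j ≤ p := by exact_mod_cast (mem_bp.1 hp).1.1
    exact pow_le_pow_left₀ (by positivity) (one_div_le_one_div_of_le (by positivity) h2) 2
  refine h1.trans ?_
  have h3 : (j : ℝ) * (bp j).card ≤ 4 * 2 ^ j := by exact_mod_cast card_bp j
  have h4 : (0 : ℝ) < 2 ^ j := by positivity
  rw [le_div_iff₀ (by positivity)]
  calc ((bp j).card : ℝ) * (1 / (2 : ℝ) ^ j) ^ 2 * (j * 2 ^ j)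
      = ((j : ℝ) * (bp j).card) * (1 / 2 ^ j) := by field_simp
    _ ≤ (4 * 2 ^ j) * (1 / 2 ^ j) := mul_le_mul_of_nonneg_right h3 (by positivity)
    _ = 4 := by field_simp

theorem hMSQ (hP : StPSI) (hR : StRNL) (hT : StTRF) (hM : StML) : StMSQ := by
  classical
  obtain ⟨f, hf, ψ, hψ1, hψ2⟩ := hP
  obtain ⟨C, hC, hML⟩ := hM
  refine ⟨12 * C, by positivity, fun T j hT3 hTj => ?_⟩
  have hT4 : 81 ≤ T ^ 4 := by
    calc 81 = 3 ^ 4 := by norm_num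
      _ ≤ T ^ 4 := Nat.pow_le_pow_left hT3 4
  have hj1 : 1 ≤ j := by
    rcases Nat.eq_zero_or_pos j with h | h
    · subst h
      omega
    · exact h
  have hj0 : (0 : ℝ) < j := by exact_mod_cast hj1
  have hT2 : T ^ 2 ≤ T ^ 4 := Nat.pow_le_pow_right (by omega) (by norm_num)
  -- the values of the characters
  have hval : ∀ t ∈ Ioc T (2 * T), ∀ p ∈ bp j, ψ t (p : ZMod (f t)) = ((js t p : ℝ) : ℂ) := by
    intro t ht p hp
    obtain ⟨ht1, ht2⟩ := Finset.mem_Ioc.1 ht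
    obtain ⟨⟨hp1, _⟩, hpr⟩ := mem_bp.1 hp
    have h7 : 7 ≤ p := by omega
    have ht4 : t ^ 2 ≤ (2 * T) ^ 2 := Nat.pow_le_pow_left ht2 2
    have ht5 : (2 * T) ^ 2 = 4 * T ^ 2 := by ring
    have htp : t ^ 2 < p := by omega
    have ht16 : 16 ≤ t ^ 2 := by
      calc 16 = 4 ^ 2 := by norm_num
        _ ≤ t ^ 2 := Nat.pow_le_pow_left (by omega) 2
    have hnd : ¬ (p : ℤ) ∣ (t : ℤ) ^ 2 - 4 := by
      intro hd
      have h1 : (0 : ℤ) < (t : ℤ) ^ 2 - 4 := by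
        have : (16 : ℤ) ≤ (t : ℤ) ^ 2 := by exact_mod_cast ht16
        linarith
      have h2 := Int.le_of_dvd h1 hd
      have h3 : (t : ℤ) ^ 2 < p := by exact_mod_cast htp
      linarith
    rw [(hψ1 t (by omega)).2.2 p hpr h7 hnd, hR t p hpr h7 hnd]
    rfl
  -- the coefficients
  set X : ℕ := 2 ^ (j + 1) with hX
  set a : ℕ → ℂ := fun M => if M ∈ bp j then ((1 / (M : ℝ) : ℝ) : ℂ) else 0 with ha
  set G : (ℕ → ℂ) → ℝ := fun x => ‖∑ M ∈ Ioc 0 (0 + X), a M * x M‖ ^ 2 with hG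
  have hG0 : ∀ x, 0 ≤ G x := fun x => by positivity
  have hsub : bp j ⊆ Ioc 0 (0 + X) := by
    intro p hp
    obtain ⟨⟨_, h2⟩, hpr⟩ := mem_bp.1 hp
    refine Finset.mem_Ioc.2 ⟨hpr.pos, ?_⟩
    rw [hX]
    omega
  have hGt : ∀ t ∈ Ioc T (2 * T), G (fun k => ψ t (k : ZMod (f t))) = bl t j ^ 2 := by
    intro t ht
    have e1 : ∑ M ∈ Ioc 0 (0 + X), a M * ψ t (M : ZMod (f t)) = ((bl t j : ℝ) : ℂ) := by
      rw [← Finset.sum_subset hsub (f := fun M => a M * ψ t (M : ZMod (f t)))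
        (fun M _ hM => by simp only [ha, if_neg hM, zero_mul])]
      unfold bl
      rw [Complex.ofReal_sum]
      refine Finset.sum_congr rfl fun p hp => ?_
      simp only [ha, if_pos hp, hval t ht p hp]
      push_cast
      ring
    simp only [hG, e1, Complex.norm_real, Real.norm_eq_abs, sq_abs]
  have hE : ∀ t ∈ Ioc T (2 * T), (ψ t).IsPrimitive ∧ f t ≤ 16 * T ^ 2 := by
    intro t ht
    obtain ⟨ht1, ht2⟩ := Finset.mem_Ioc.1 ht
    obtain ⟨h1, h2, _⟩ := hψ1 t (by omega)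
    refine ⟨h1, h2.trans ?_⟩
    have ht4 : t ^ 2 ≤ (2 * T) ^ 2 := Nat.pow_le_pow_left ht2 2
    have ht5 : (2 * T) ^ 2 = 4 * T ^ 2 := by ring
    omega
  have h1 := hT (Ioc T (2 * T)) f hf ψ (16 * T ^ 2) hE (hψ2 T hT3) G hG0
  rw [Finset.sum_congr rfl hGt] at h1
  have h2 := hML (16 * T ^ 2) X 0 a
  have h3 : ∑ r ∈ Icc 1 (16 * T ^ 2), SP G r ≤
      ∑ r ∈ Icc (1 : ℕ) (16 * T ^ 2), ((r : ℕ) : ℝ) / Nat.totient r * SP G r := by
    refine Finset.sum_le_sum fun r hr => ?_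
    have hr1 := (Finset.mem_Icc.1 hr).1
    have ht : (0 : ℝ) < Nat.totient r := by exact_mod_cast Nat.totient_pos.2 hr1
    have hq : 1 ≤ (r : ℝ) / Nat.totient r := by
      rw [one_le_div ht]; exact_mod_cast Nat.totient_le r
    exact le_mul_of_one_le_left (SP_nonneg G hG0 r) hq
  have h4 : ∑ M ∈ Ioc 0 (0 + X), ‖a M‖ ^ 2 = ∑ p ∈ bp j, (1 / (p : ℝ)) ^ 2 := by
    rw [← Finset.sum_subset hsub (f := fun M => ‖a M‖ ^ 2)
      (fun M _ hM => by simp only [ha, if_neg hM, norm_zero]; norm_num)]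
    refine Finset.sum_congr rfl fun p hp => ?_
    simp only [ha, if_pos hp, Complex.norm_real, Real.norm_eq_abs, sq_abs]
  rw [h4] at h2
  have h5 := sum_sq j hj1
  have h6 : (X : ℝ) + ((16 * T ^ 2 : ℕ) : ℝ) ^ 2 ≤ 3 * 2 ^ j := by
    have h7 : (16 * T ^ 2) ^ 2 = 256 * T ^ 4 := by ring
    have h8 : X + (16 * T ^ 2) ^ 2 ≤ 3 * 2 ^ j := by
      rw [h7, hX, pow_succ]
      omega
    exact_mod_cast h8
  have h7 : (0 : ℝ) ≤ ∑ p ∈ bp j, (1 / (p : ℝ)) ^ 2 :=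
    Finset.sum_nonneg fun p _ => sq_nonneg _
  have h8 : C * ((X : ℝ) + ((16 * T ^ 2 : ℕ) : ℝ) ^ 2) * ∑ p ∈ bp j, (1 / (p : ℝ)) ^ 2 ≤
      C * (3 * 2 ^ j) * (4 / (j * 2 ^ j)) :=
    mul_le_mul (mul_le_mul_of_nonneg_left h6 hC.le) h5 h7 (by positivity)
  have h9 : C * (3 * 2 ^ j) * (4 / (j * 2 ^ j)) = 12 * C / j := by
    field_simp
    ring
  exact h1.trans (h3.trans (h2.trans (h8.trans_eq h9)))

end Pool.Agent.Helper84.LZ
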